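import Mathlib
import Pool.Agent.Hhelper64.GA.Micro

namespace Pool.Agent.Results.MP_b2d650_al.MicroSupported

/-- Let `G` act faithfully by homeomorphisms on a Hausdorff space `X` such that every nonempty
open set `U` supports a nontrivial element of `G` (an element fixing every point outside `U`).
Then for every field `F` of characteristic zero the Jacobson radical of `F[G]` is zero. -/
theorem result {F : Type*} [Field F] [CharZero F] {G : Type*} [Group G]
    {X : Type*} [TopologicalSpace X] [T2Space X] [MulAction G X] [ContinuousConstSMul G X]
    [FaithfulSMul G X]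
    (h : ∀ U : Set X, IsOpen U → U.Nonempty → ∃ g : G, g ≠ 1 ∧ ∀ x, x ∉ U → g • x = x) :
    Ideal.jacobson (⊥ : Ideal (MonoidAlgebra F G)) = ⊥ :=
  Pool.Agent.Hhelper64.GA.micro h

end Pool.Agent.Results.MP_b2d650_al.MicroSupported
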