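import Mathlib
import Pool.Agent.Hhelper64.GA.Oligo

namespace Pool.Agent.Results.MP_b2d650_al.Oligomorphic

/-- Let `G` act faithfully on a set `X` such that `G` has only finitely many orbits on `X ^ n`
for every `n` (the action is oligomorphic) and such that for every finite set `A` of points and
every point `z` outside `A` the orbit of `z` under the pointwise stabiliser of `A` is infinite
(the action has no algebraicity). For instance every faithful highly transitive action on an
infinite set has these properties. Then for every field `F` of characteristic zero the Jacobson
radical of `F[G]` is zero. -/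
theorem result {F : Type*} [Field F] [CharZero F] {G : Type*} [Group G]
    {X : Type*} [MulAction G X] [FaithfulSMul G X]
    (h1 : ∀ n : ℕ, Finite (MulAction.orbitRel.Quotient G (Fin n → X)))
    (h2 : ∀ A : Finset X, ∀ z, z ∉ A →
      (MulAction.orbit (fixingSubgroup G (A : Set X)) z).Infinite) :
    Ideal.jacobson (⊥ : Ideal (MonoidAlgebra F G)) = ⊥ :=
  Pool.Agent.Hhelper64.GA.oligo h1 h2

end Pool.Agent.Results.MP_b2d650_al.Oligomorphic
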