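import Pool.Agent.KK.Down

/-!
# Semisimplicity of group algebras from the absence of small projections

Let `G` be a group.  Suppose that `ℂ[G]` embeds into some C*-algebra `A`, by a unitary
representation of `G`, in such a way that the norm closure of `ℂ[G]` in `A` contains no infinite
sequence of nonzero pairwise orthogonal projections (for example, the closure has no projections
except `0` and `1`).  Then `F[G]` is semisimple for every field `F` of characteristic zero which is
algebraic over `ℚ`.

If the closure is the reduced C*-algebra of `G` and all its nonzero projections have trace at least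
`ε > 0`, then orthogonal families of nonzero projections have at most `1 / ε` members; this case is
spelled out in `Pool/Agent/KK/Regular.lean`.
-/

namespace Pool.Agent.Results.MP_b2d650_al.ProjectionGap

open Pool.Agent.KK

universe x v w

theorem result {G : Type x} [Group G] {A : Type v} [CStarAlgebra A] (u : G →* unitary A)
    (hu : Function.Injective (MonoidAlgebra.lift ℂ A G ((unitary A).subtype.comp u)))
    (hA : ¬ ∃ p : ℕ → A,
      (∀ n, p n ∈ closure (Set.range (MonoidAlgebra.lift ℂ A G ((unitary A).subtype.comp u))) ∧
        IsStarProjection (p n) ∧ p n ≠ 0) ∧
      ∀ m n, m ≠ n → p m * p n = 0)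
    {F : Type w} [Field F] [CharZero F] [Algebra.IsAlgebraic ℚ F] :
    Ideal.jacobson (⊥ : Ideal (MonoidAlgebra F G)) = ⊥ := by
  by_contra hJ
  have : Nontrivial A := hu.nontrivial
  exact hA (exists_projections_E u hu (jacobson_E hJ))

end Pool.Agent.Results.MP_b2d650_al.ProjectionGap
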