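import Pool.Agent.ZDS.Local

/-!
# Zero divisors modulo one prime and semisimplicity in characteristic zero

Let `G` be a group such that every finite subset of `G` lies in a subgroup `H` for which there is a
prime `p` with the property: every nonzero two-sided ideal of `𝔽_p[H]` contains an element `x` which
is not a two-sided zero divisor (there is no `y ≠ 0` with `x y = y x = 0`).  Then `F[G]` is
semisimple for every field `F` of characteristic zero.

In particular: if `𝔽_p[G]` has no zero divisors for one prime `p`, then the Jacobson radical of
`F[G]` is zero for every field `F` of characteristic zero.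
-/

namespace Pool.Agent.Results.MP_b2d650_al.ZeroDivisorsModP

theorem result {G : Type*} [Group G]
    (h : ∀ S : Finset G, ∃ H : Subgroup G, (S : Set G) ⊆ H ∧ ∃ p : ℕ, p.Prime ∧
      ∀ I : Ideal (MonoidAlgebra (ZMod p) H), I.IsTwoSided → I ≠ ⊥ →
        ∃ x ∈ I, ∀ y : MonoidAlgebra (ZMod p) H, x * y = 0 → y * x = 0 → y = 0)
    {F : Type*} [Field F] [CharZero F] :
    Ideal.jacobson (⊥ : Ideal (MonoidAlgebra F G)) = ⊥ :=
  Pool.Agent.ZDS.semisimple h

end Pool.Agent.Results.MP_b2d650_al.ZeroDivisorsModP
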